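import Pool.Agent.helper34.MO.SpecD

/-! Row mo:DLO (MP_0631c5_co) -/

open Complex Finset

namespace Pool.Agent.MO

theorem DLO_iT (m : ℕ) (R : ℝ) : ContinuousOn (fun t : ℝ => iT t m) (Set.Icc 10 R) := by
  unfold iT
  apply ContinuousOn.div continuousOn_id (by fun_prop)
  intro t ht
  have h1 : (10 : ℝ) ≤ t := ht.1
  have h2 : (0 : ℝ) ≤ 1.053 * (m : ℝ) := by positivity
  have h3 : (0 : ℝ) < t ^ 2 := by positivity
  exact ne_of_gt (by linarith)

theorem DLO_ZT (R : ℝ) (τ : Tr) : ∀ ma mb : ℕ, ContinuousOn (fun t : ℝ => ZT t τ ma mb) (Set.Icc 10 R) := by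
  induction τ with
  | e =>
    intro ma mb
    unfold ZT
    exact continuousOn_const
  | nd l r ihl ihr =>
    intro ma mb
    unfold ZT
    exact (((continuousOn_const.mul (DLO_iT _ R)).mul (DLO_iT ma R)).mul (DLO_iT mb R)).add (ihl _ _) |>.add (ihr _ _)

theorem DLO (hINTF : INTF_stmt) (hPIT : PIT_stmt) (hIN1 : IN1_stmt) (hIZT : IZT_stmt) : DLO_stmt := by
  intro L τ ma mb H X hL hH hX h1 h2 h3
  have hlim := hINTF L hL
  apply le_of_forall_pos_le_add
  intro ε hε
  obtain ⟨R0, hR0, hR⟩ := hIZT τ ma mb ε hε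
  have hpi : (0 : ℝ) < Real.pi := Real.pi_pos
  have key : ∀ᶠ R : ℝ in Filter.atTop, GS τ ma mb - H - (1 - 8 / (3 * Real.pi)) * X - ε ≤
      4 / Real.pi * ∫ t in (0 : ℝ)..R, t * Phi L t := by
    filter_upwards [Filter.eventually_ge_atTop R0] with R hRR
    have h10 : (10 : ℝ) ≤ R := le_trans hR0 hRR
    have i01 := hPIT L 0 1 le_rfl (by norm_num)
    have i110 := hPIT L 1 10 (by norm_num) (by norm_num)
    have i10R := hPIT L 10 R (by norm_num) h10
    have hsplit : (∫ t in (0 : ℝ)..R, t * Phi L t) = (∫ t in (0 : ℝ)..1, t * Phi L t) +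
        (∫ t in (1 : ℝ)..10, t * Phi L t) + ∫ t in (10 : ℝ)..R, t * Phi L t := by
      rw [intervalIntegral.integral_add_adjacent_intervals i01 i110,
        intervalIntegral.integral_add_adjacent_intervals (i01.trans i110) i10R]
    have c1 : Continuous (fun t : ℝ => t * (Real.pi / 2 - 2 * Real.arctan (Real.sqrt t))) := by
      have : Continuous (fun t : ℝ => Real.arctan (Real.sqrt t)) :=
        Real.continuous_arctan.comp Real.continuous_sqrt
      fun_prop
    have hA : -H * (Real.pi / 4) - X * (Real.pi / 4 - 2 / 3) ≤ ∫ t in (0 : ℝ)..1, t * Phi L t := by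
      have e1 : (∫ t in (0 : ℝ)..1, (t * (-H * (Real.pi / 2)) -
          X * (t * (Real.pi / 2 - 2 * Real.arctan (Real.sqrt t))))) =
          -H * (Real.pi / 4) - X * (Real.pi / 4 - 2 / 3) := by
        have e0 : IntervalIntegrable (fun t : ℝ => t * (-H * (Real.pi / 2))) MeasureTheory.volume 0 1 :=
          (continuous_id.mul continuous_const).intervalIntegrable 0 1
        have e2 : IntervalIntegrable (fun t : ℝ => X * (t * (Real.pi / 2 - 2 * Real.arctan (Real.sqrt t))))
            MeasureTheory.volume 0 1 := (continuous_const.mul c1).intervalIntegrable 0 1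
        rw [intervalIntegral.integral_sub e0 e2,
          intervalIntegral.integral_const_mul, hIN1, intervalIntegral.integral_mul_const, integral_id]
        ring
      rw [← e1]
      apply intervalIntegral.integral_mono_on_of_le_Ioo (by norm_num)
      · have e0 : Continuous (fun t : ℝ => t * (-H * (Real.pi / 2))) := continuous_id.mul continuous_const
        exact (e0.sub (continuous_const.mul c1)).intervalIntegrable 0 1
      · exact i01
      · intro t ht
        have ht0 : 0 < t := ht.1
        have h5 := mul_le_mul_of_nonneg_left (h1 t ht0 ht.2) ht0.le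
        calc t * (-H * (Real.pi / 2)) - X * (t * (Real.pi / 2 - 2 * Real.arctan (Real.sqrt t)))
            = t * (-H * (Real.pi / 2) - X * (Real.pi / 2 - 2 * Real.arctan (Real.sqrt t))) := by ring
          _ ≤ t * Phi L t := h5
    have hB : 0 ≤ ∫ t in (1 : ℝ)..10, t * Phi L t := by
      apply intervalIntegral.integral_nonneg (by norm_num)
      intro t ht
      exact mul_nonneg (by linarith [ht.1]) (h2 t ht.1)
    have hC : (∫ t in (10 : ℝ)..R, t * (0.83 * ZT t τ ma mb)) ≤ ∫ t in (10 : ℝ)..R, t * Phi L t := by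
      apply intervalIntegral.integral_mono_on h10
      · apply ContinuousOn.intervalIntegrable
        rw [Set.uIcc_of_le h10]
        exact continuousOn_id.mul (continuousOn_const.mul (DLO_ZT R τ ma mb))
      · exact i10R
      · intro t ht
        exact mul_le_mul_of_nonneg_left (h3 t ht.1) (by linarith [ht.1])
    have hD := hR R hRR
    have hq : (0 : ℝ) < 4 / Real.pi := by positivity
    have g1 := mul_le_mul_of_nonneg_left hA hq.le
    have g2 := mul_nonneg hq.le hB
    have g3 := mul_le_mul_of_nonneg_left hC hq.le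
    have g4 : 4 / Real.pi * (-H * (Real.pi / 4) - X * (Real.pi / 4 - 2 / 3)) =
        -H - (1 - 8 / (3 * Real.pi)) * X := by
      field_simp
      ring
    rw [hsplit, mul_add, mul_add]
    linarith
  have hge := ge_of_tendsto hlim key
  linarith

end Pool.Agent.MO
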