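import Pool.Agent.helper34.MO.SpecC

/-! Row mo:LT1 (MP_0631c5_co) -/

open Complex Finset

namespace Pool.Agent.MO

/-- weight of a port with count `m` -/
noncomputable def LT1_port (t : ℝ) (m : ℕ) : Option ℝ := if 13 ≤ m then none else some t

theorem LT1_isSome (t : ℝ) (m : ℕ) : (LT1_port t m).isSome = decide (m < 13) := by
  unfold LT1_port
  by_cases h : 13 ≤ m
  · rw [if_pos h]
    have h2 : ¬ m < 13 := by omega
    simp [h2]
  · rw [if_neg h]
    have h2 : m < 13 := by omega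
    simp [h2]

theorem LT1_pos (t : ℝ) (ht : 0 < t) (m : ℕ) : ∀ x, LT1_port t m = some x → 0 < x := by
  intro x hx
  unfold LT1_port at hx
  by_cases h : 13 ≤ m
  · rw [if_pos h] at hx
    exact absurd hx (by simp)
  · rw [if_neg h] at hx
    have := Option.some.inj hx
    rw [← this]
    exact ht

theorem LT1_chi (hCHI : CHI_stmt) (t : ℝ) (ht : 0 < t) (m : ℕ) (R : ℝ) (hR : 0 < R) :
    0 < (LT1_port t m).getD R ∧
    chi ((LT1_port t m).getD R) t ≤ ((if 13 ≤ m then 1 else 0 : ℕ) : ℝ) * (Real.pi / 2) := by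
  unfold LT1_port
  by_cases h : 13 ≤ m
  · rw [if_pos h, if_pos h]
    refine ⟨hR, ?_⟩
    have h1 := (hCHI.2.1 R t hR ht).2
    simpa using h1
  · rw [if_neg h, if_neg h]
    refine ⟨ht, ?_⟩
    have h1 := hCHI.1 t ht
    have h2 : (some t : Option ℝ).getD R = t := rfl
    rw [h2, h1]
    simp

theorem LT1 (hCHI : CHI_stmt) (hRPF : RPF_stmt) (hLIM : LIM_stmt) (hTCW : TCW_stmt) (hLAB : LAB_stmt) :
    LT1_stmt := by
  intro τ t ht0 ht1
  obtain ⟨hReq, hPos, hDom, hR⟩ := hLAB t τ τ.ls (τ.rs + 1) false ht0 ht1.le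
  set L := lab t τ τ.ls (τ.rs + 1) false with hLdef
  set a := LT1_port t τ.ls with ha
  set b := LT1_port t (τ.rs + 1) with hb
  have hReq' : ReqL a.isSome b.isSome L := by
    rw [ha, hb, LT1_isSome, LT1_isSome]
    exact hReq
  have h0 : 0 ≤ phiW a b L := hRPF L L a b hPos hDom hReq' (LT1_pos t ht0 _) (LT1_pos t ht0 _)
  have hlim := hLIM L a b hPos (LT1_pos t ht0 _) (LT1_pos t ht0 _)
  have hle : phiW a b L ≤ phiW (some t) (some t) (uni t τ) + ((hT τ : ℝ) * (Real.pi / 2) +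
      (xc τ τ.ls (τ.rs + 1) false : ℝ) * (Real.pi / 2 - 2 * Real.arctan (Real.sqrt t))) := by
    refine le_of_tendsto hlim ?_
    filter_upwards [Filter.eventually_gt_atTop (0 : ℝ)] with R hRpos
    obtain ⟨hS, hP1, hP2, hW⟩ := hR R hRpos
    obtain ⟨a1, a2⟩ := LT1_chi hCHI t ht0 τ.ls R hRpos
    obtain ⟨b1, b2⟩ := LT1_chi hCHI t ht0 (τ.rs + 1) R hRpos
    have h := hTCW (fill R L) (uni t τ) (a.getD R) (b.getD R) t t hS hP1 hP2 a1 b1 ht0 ht0
    have e : (hT τ : ℝ) = (hc τ : ℝ) + ((if 13 ≤ τ.ls then 1 else 0 : ℕ) : ℝ) +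
        ((if 13 ≤ τ.rs + 1 then 1 else 0 : ℕ) : ℝ) := by
      unfold hT
      push_cast
      ring
    rw [e]
    have a2' : chi (a.getD R) t ≤ ((if 13 ≤ τ.ls then 1 else 0 : ℕ) : ℝ) * (Real.pi / 2) := a2
    have b2' : chi (b.getD R) t ≤ ((if 13 ≤ τ.rs + 1 then 1 else 0 : ℕ) : ℝ) * (Real.pi / 2) := b2
    linarith
  linarith

end Pool.Agent.MO
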